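import Pool.Agent.Lib.MP_eee7a8_ag.TB.IfaceA
import Pool.Agent.Lib.MP_eee7a8_ag.TB.A.Coord

/-!
# TAGBR: module REP (the decorated representation)
-/

open Matrix

namespace Pool.Agent.Lib.MP_eee7a8_ag.TB

namespace AREP

theorem eps_neg (g : SLZ) (a : Cusp) : eps (-g) a = -eps g a := by
  have h1 := smul_x (-g) a
  have h2 := smul_y (-g) a
  rw [neg_smul'] at h1 h2
  have h3 := smul_x g a
  have h4 := smul_y g a
  simp only [Matrix.SpecialLinearGroup.coe_neg, Matrix.neg_apply] at h1 h2
  rcases (g • a).ne_zero with h | h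
  · apply mul_right_cancel₀ h
    linear_combination h1 + h3
  · apply mul_right_cancel₀ h
    linear_combination h2 + h4

variable {G : Subgroup SLZ} {K : Type} [Field K] [Algebra ℂ K] (L : Lam G K)

theorem lam_iz : L.lam infty zero ≠ 0 := by
  have h := L.free 1 (fun _ => infty) (fun _ => zero) (by intro i; simp [dt, infty, zero])
    (by intro i j hij; exact absurd (Subsingleton.elim i j) hij)
  exact h.ne_zero 0

theorem sl_iz : L.sl infty zero = L.lam infty zero := by
  have : dt infty zero = 1 := by simp [dt, infty, zero]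
  rw [Lam.sl, this]
  simp

/-- the vectors -/
def W (a : Cusp) : Fin 2 → K := ![L.sl a zero / L.sl infty zero, L.sl infty a]

omit [Algebra ℂ K] in
/-- two vectors with equal determinants with two independent vectors are equal -/
theorem vec_eq {u v p q : Fin 2 → K} (h : p 0 * q 1 - p 1 * q 0 ≠ 0)
    (h1 : u 0 * p 1 - u 1 * p 0 = v 0 * p 1 - v 1 * p 0)
    (h2 : u 0 * q 1 - u 1 * q 0 = v 0 * q 1 - v 1 * q 0) : u = v := by
  funext i
  fin_cases i
  · apply mul_right_cancel₀ h
    simp only [Fin.zero_eta, Fin.isValue]
    linear_combination (-q 0) * h1 + p 0 * h2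
  · apply mul_right_cancel₀ h
    simp only [Fin.mk_one, Fin.isValue]
    linear_combination (-q 1) * h1 + p 1 * h2

/-- the matrices -/
def M (g : SLZ) : Matrix (Fin 2) (Fin 2) K :=
  !![((eps g infty : ℤ) : K) * W L (g • infty) 0,
      ((eps g zero : ℤ) : K) * W L (g • zero) 0 / L.sl infty zero;
    ((eps g infty : ℤ) : K) * W L (g • infty) 1,
      ((eps g zero : ℤ) : K) * W L (g • zero) 1 / L.sl infty zero]

end AREP

open AREP in
/-- Module REP. -/
theorem rep (hP : PluckerStatement) : RepStatement := by
  intro G K _ _ L _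
  obtain ⟨hpl, hsy, hin⟩ := hP G K L
  have hs : L.sl infty zero ≠ 0 := by rw [sl_iz]; exact lam_iz L
  have hself : ∀ a, L.sl a a = 0 := by
    intro a
    rw [Lam.sl, dt_self]
    simp
  have hdet : ∀ a b, W L a 0 * W L b 1 - W L a 1 * W L b 0 = L.sl a b := by
    intro a b
    change L.sl a zero / L.sl infty zero * L.sl infty b -
      L.sl infty a * (L.sl b zero / L.sl infty zero) = L.sl a b
    have h1 := hpl a b infty zero
    rw [hsy a infty, hsy b infty] at h1
    field_simp
    linear_combination (-1 : K) * h1
  have hep : ∀ (g : SLZ) a, ((eps g a : ℤ) : K) * ((eps g a : ℤ) : K) = 1 := by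
    intro g a
    rw [← Int.cast_mul, eps_sq, Int.cast_one]
  have hWi0 : W L infty 0 = 1 := by
    change L.sl infty zero / L.sl infty zero = 1
    exact div_self hs
  have hWi1 : W L infty 1 = 0 := hself infty
  have hWz0 : W L zero 0 = 0 := by
    change L.sl zero zero / L.sl infty zero = 0
    rw [hself, zero_div]
  have hWz1 : W L zero 1 = L.sl infty zero := rfl
  have hact : ∀ g ∈ G, ∀ a, M L g *ᵥ W L a = ((eps g a : ℤ) : K) • W L (g • a) := by
    intro g hg a
    have e0 : (M L g *ᵥ W L a) 0 = ((eps g infty : ℤ) : K) * W L (g • infty) 0 * W L a 0 +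
        ((eps g zero : ℤ) : K) * W L (g • zero) 0 / L.sl infty zero * W L a 1 := by
      simp [M, Matrix.mulVec, dotProduct, Fin.sum_univ_two]
    have e1 : (M L g *ᵥ W L a) 1 = ((eps g infty : ℤ) : K) * W L (g • infty) 1 * W L a 0 +
        ((eps g zero : ℤ) : K) * W L (g • zero) 1 / L.sl infty zero * W L a 1 := by
      simp [M, Matrix.mulVec, dotProduct, Fin.sum_univ_two]
    have d1 := hdet (g • infty) (g • zero)
    have i1 := hin g hg infty zero
    have i2 := hin g hg a infty
    have i3 := hin g hg a zero
    have d2 := hdet (g • a) (g • infty)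
    have d3 := hdet (g • a) (g • zero)
    have p1 := hep g infty
    have p2 := hep g zero
    have p3 := hep g a
    rw [Int.cast_mul] at i1 i2 i3
    apply vec_eq (p := W L (g • infty)) (q := W L (g • zero))
    · rw [d1, i1]
      refine mul_ne_zero (mul_ne_zero ?_ ?_) hs
      · intro h; rw [h] at p1; simp at p1
      · intro h; rw [h] at p2; simp at p2
    · rw [e0, e1, Pi.smul_apply, Pi.smul_apply, smul_eq_mul, smul_eq_mul]
      have ha1 : W L a 1 = -L.sl a infty := by
        change L.sl infty a = _
        rw [hsy]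
      have key : ((eps g a : ℤ) : K) * W L (g • a) 0 * W L (g • infty) 1 -
          ((eps g a : ℤ) : K) * W L (g • a) 1 * W L (g • infty) 0 =
          ((eps g infty : ℤ) : K) * L.sl a infty := by
        have : ((eps g a : ℤ) : K) * W L (g • a) 0 * W L (g • infty) 1 -
          ((eps g a : ℤ) : K) * W L (g • a) 1 * W L (g • infty) 0 =
          ((eps g a : ℤ) : K) * (W L (g • a) 0 * W L (g • infty) 1 -
            W L (g • a) 1 * W L (g • infty) 0) := by ring
        rw [this, d2, i2]
        linear_combination (((eps g infty : ℤ) : K) * L.sl a infty) * p3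
      rw [key, ha1]
      have d1' : W L (g • zero) 0 * W L (g • infty) 1 - W L (g • zero) 1 * W L (g • infty) 0 =
          -(((eps g infty : ℤ) : K) * ((eps g zero : ℤ) : K) * L.sl infty zero) := by
        rw [← i1, ← d1]; ring
      have : (((eps g infty : ℤ) : K) * W L (g • infty) 0 * W L a 0 +
          ((eps g zero : ℤ) : K) * W L (g • zero) 0 / L.sl infty zero * -L.sl a infty) *
            W L (g • infty) 1 -
          (((eps g infty : ℤ) : K) * W L (g • infty) 1 * W L a 0 +
          ((eps g zero : ℤ) : K) * W L (g • zero) 1 / L.sl infty zero * -L.sl a infty) *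
            W L (g • infty) 0 = ((eps g zero : ℤ) : K) * -L.sl a infty / L.sl infty zero *
          (W L (g • zero) 0 * W L (g • infty) 1 - W L (g • zero) 1 * W L (g • infty) 0) := by
        ring
      rw [this, d1']
      field_simp
      linear_combination (((eps g infty : ℤ) : K) * L.sl a infty) * p2
    · rw [e0, e1, Pi.smul_apply, Pi.smul_apply, smul_eq_mul, smul_eq_mul]
      have ha0 : W L a 0 = L.sl a zero / L.sl infty zero := rfl
      have key : ((eps g a : ℤ) : K) * W L (g • a) 0 * W L (g • zero) 1 -
          ((eps g a : ℤ) : K) * W L (g • a) 1 * W L (g • zero) 0 =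
          ((eps g zero : ℤ) : K) * L.sl a zero := by
        have : ((eps g a : ℤ) : K) * W L (g • a) 0 * W L (g • zero) 1 -
          ((eps g a : ℤ) : K) * W L (g • a) 1 * W L (g • zero) 0 =
          ((eps g a : ℤ) : K) * (W L (g • a) 0 * W L (g • zero) 1 -
            W L (g • a) 1 * W L (g • zero) 0) := by ring
        rw [this, d3, i3]
        linear_combination (((eps g zero : ℤ) : K) * L.sl a zero) * p3
      rw [key, ha0]
      have : (((eps g infty : ℤ) : K) * W L (g • infty) 0 * (L.sl a zero / L.sl infty zero) +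
          ((eps g zero : ℤ) : K) * W L (g • zero) 0 / L.sl infty zero * W L a 1) *
            W L (g • zero) 1 -
          (((eps g infty : ℤ) : K) * W L (g • infty) 1 * (L.sl a zero / L.sl infty zero) +
          ((eps g zero : ℤ) : K) * W L (g • zero) 1 / L.sl infty zero * W L a 1) *
            W L (g • zero) 0 = ((eps g infty : ℤ) : K) * (L.sl a zero / L.sl infty zero) *
          (W L (g • infty) 0 * W L (g • zero) 1 - W L (g • infty) 1 * W L (g • zero) 0) := by
        ring
      rw [this, d1, i1]
      field_simp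
      linear_combination (((eps g zero : ℤ) : K) * L.sl a zero) * p1
  have hMdet : ∀ g ∈ G, (M L g).det = 1 := by
    intro g hg
    rw [Matrix.det_fin_two]
    simp only [M, Matrix.of_apply, Matrix.cons_val', Matrix.cons_val_zero, Matrix.cons_val_one,
      Matrix.cons_val_fin_one]
    have d1 := hdet (g • infty) (g • zero)
    rw [hin g hg infty zero, Int.cast_mul] at d1
    have p1 := hep g infty
    have p2 := hep g zero
    field_simp
    linear_combination (((eps g infty : ℤ) : K) * ((eps g zero : ℤ) : K)) * d1 +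
      (L.sl infty zero * (((eps g zero : ℤ) : K) * ((eps g zero : ℤ) : K))) * p1 +
      (L.sl infty zero) * p2
  -- a matrix is determined by its values on two vectors
  have hext : ∀ A B : Matrix (Fin 2) (Fin 2) K, A *ᵥ W L infty = B *ᵥ W L infty →
      A *ᵥ W L zero = B *ᵥ W L zero → A = B := by
    intro A B h1 h2
    ext i j
    have h1' := congrFun h1 i
    have h2' := congrFun h2 i
    simp only [Matrix.mulVec, dotProduct, Fin.sum_univ_two, hWi0, hWi1, hWz0, hWz1, mul_one,
      mul_zero, add_zero, zero_add] at h1' h2'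
    fin_cases j
    · exact h1'
    · exact mul_right_cancel₀ hs h2'
  refine ⟨⟨W L, MonoidHom.mk' (fun g => ⟨M L g, hMdet g g.2⟩) ?_, hdet, ?_, ?_⟩⟩
  · intro g h
    apply Subtype.ext
    change M L ((g : SLZ) * h) = M L g * M L h
    have key : ∀ a, M L ((g : SLZ) * h) *ᵥ W L a = (M L g * M L h) *ᵥ W L a := by
      intro a
      rw [hact _ (G.mul_mem g.2 h.2), ← Matrix.mulVec_mulVec, hact _ h.2, Matrix.mulVec_smul,
        hact _ g.2, smul_smul, eps_mul, Int.cast_mul, mul_smul (g : SLZ), mul_comm]
    exact hext _ _ (key _) (key _)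
  · intro g a
    exact hact g g.2 a
  · intro g h hgh
    change M L h = -M L g
    have key : ∀ a, M L h *ᵥ W L a = (-M L g) *ᵥ W L a := by
      intro a
      rw [hact _ h.2, Matrix.neg_mulVec, hact _ g.2, hgh, eps_neg, neg_smul', Int.cast_neg,
        neg_smul]
    exact hext _ _ (key _) (key _)

end Pool.Agent.Lib.MP_eee7a8_ag.TB
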