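import Pool.Agent.Lib.MP_eee7a8_ag.TB.A.H39.Vpar

/-!
# TAGBR: module TRACE (traces of hyperbolic elements)
-/

open Matrix

namespace Pool.Agent.Lib.MP_eee7a8_ag.TB

namespace ATRACE

open AREP AVPAR

/-! ### integers -/

theorem side_eq (h : SLZ) (a : Cusp) : side h a = eps h a * dt a (h • a) := by
  unfold side dt
  rw [← smul_x h a, ← smul_y h a]
  ring

theorem trace_eq (h : SLZ) : h.1.trace = h.1 0 0 + h.1 1 1 := Matrix.trace_fin_two _

theorem trace_par (a : Cusp) (n : ℤ) : (par a n).1.trace = 2 := by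
  rw [trace_eq]
  simp only [par, Matrix.of_apply, Matrix.cons_val', Matrix.cons_val_zero, Matrix.cons_val_one,
    Matrix.cons_val_fin_one]
  ring

theorem trace_neg' (h : SLZ) : (-h).1.trace = -h.1.trace := by
  rw [trace_eq, trace_eq]
  simp only [Matrix.SpecialLinearGroup.coe_neg, Matrix.neg_apply]
  ring

theorem side_ne {h : SLZ} (hh : 2 < |h.1.trace|) (a : Cusp) : side h a ≠ 0 := by
  intro h0
  rw [side_eq] at h0
  rcases mul_eq_zero.1 h0 with h1 | h1
  · exact eps_ne_zero _ _ h1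
  · obtain ⟨n, hn⟩ := fix_par (dt_eq_zero.1 h1).symm
    rcases hn with rfl | rfl
    · rw [trace_par] at hh; simp at hh
    · rw [trace_neg', trace_par] at hh; simp at hh

/-- the determinant of `a` and `h b` -/
theorem dv (h : SLZ) (a b : Cusp) : eps h b * dt a (h • b) =
    a.x * (h.1 1 0 * b.x + h.1 1 1 * b.y) - a.y * (h.1 0 0 * b.x + h.1 0 1 * b.y) := by
  unfold dt
  rw [← smul_x h b, ← smul_y h b]
  ring

theorem inv_apply' (h : SLZ) : (h⁻¹).1 0 0 = h.1 1 1 ∧ (h⁻¹).1 0 1 = -h.1 0 1 ∧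
    (h⁻¹).1 1 0 = -h.1 1 0 ∧ (h⁻¹).1 1 1 = h.1 0 0 := by
  have hinv : ((h⁻¹ : SLZ) : Matrix (Fin 2) (Fin 2) ℤ) =
      !![h.1 1 1, -h.1 0 1; -h.1 1 0, h.1 0 0] := by
    rw [Matrix.SpecialLinearGroup.coe_inv, Matrix.adjugate_fin_two]
  refine ⟨?_, ?_, ?_, ?_⟩ <;> rw [hinv] <;> simp

theorem dv_add (h : SLZ) (a b : Cusp) :
    eps h b * dt a (h • b) + eps h⁻¹ b * dt a (h⁻¹ • b) = h.1.trace * dt a b := by
  obtain ⟨e1, e2, e3, e4⟩ := inv_apply' h
  rw [dv, dv, e1, e2, e3, e4, trace_eq]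
  unfold dt
  ring

theorem dv_mul (h : SLZ) (a b : Cusp) :
    (eps h b * dt a (h • b)) * (eps h⁻¹ b * dt a (h⁻¹ • b)) =
      dt a b * dt a b - side h a * side h b := by
  obtain ⟨e1, e2, e3, e4⟩ := inv_apply' h
  rw [dv, dv, e1, e2, e3, e4]
  unfold dt side
  have hd := det_eq h
  linear_combination ((a.x * b.y - a.y * b.x) * (a.x * b.y - a.y * b.x)) * hd

theorem dv_sq (h : SLZ) (a : Cusp) :
    eps (h * h) a * dt a ((h * h) • a) = h.1.trace * (eps h a * dt a (h • a)) := by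
  rw [dv, dv, trace_eq]
  simp only [Matrix.SpecialLinearGroup.coe_mul, Matrix.mul_apply, Fin.sum_univ_two]
  have hd := det_eq h
  ring

/-! ### traces in `SL(2)` over a commutative ring -/

section ring

variable {R : Type*} [CommRing R]

theorem cayley (A : Matrix (Fin 2) (Fin 2) R) (hA : A.det = 1) : A * A = A.trace • A - 1 := by
  rw [Matrix.det_fin_two] at hA
  rw [Matrix.trace_fin_two]
  ext i j
  fin_cases i <;> fin_cases j <;>
    simp [Matrix.mul_apply, Fin.sum_univ_two] <;>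
    first | ring1 | linear_combination (-1 : R) * hA

theorem tk_succ (t : R) (k : ℕ) : tk t (k + 2) = t * tk t (k + 1) - tk t k := rfl

theorem trace_pow (A : Matrix (Fin 2) (Fin 2) R) (hA : A.det = 1) (k : ℕ) :
    (A ^ k).trace = tk A.trace k ∧ (A ^ (k + 1)).trace = tk A.trace (k + 1) := by
  induction k with
  | zero =>
    refine ⟨?_, ?_⟩
    · rw [pow_zero, Matrix.trace_one]
      simp [tk]
    · rw [zero_add, pow_one]; rfl
  | succ k ih =>
    refine ⟨ih.2, ?_⟩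
    have e : A ^ (k + 1 + 1) = A ^ k * (A * A) := by rw [pow_succ, pow_succ, mul_assoc]
    rw [e, cayley A hA, mul_sub, mul_one, Matrix.mul_smul, ← pow_succ, Matrix.trace_sub,
      Matrix.trace_smul, ih.1, ih.2, smul_eq_mul]
    rfl

theorem tk_sign (t σ : R) (hσ : σ * σ = 1) (k : ℕ) :
    tk (σ * t) k = σ ^ k * tk t k ∧ tk (σ * t) (k + 1) = σ ^ (k + 1) * tk t (k + 1) := by
  induction k with
  | zero => simp [tk]
  | succ k ih =>
    refine ⟨ih.2, ?_⟩
    rw [tk_succ, ih.1, ih.2, tk_succ]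
    linear_combination (σ ^ k * tk t k) * hσ

theorem tr_conj (g h : Matrix.SpecialLinearGroup (Fin 2) R) :
    (g * h * g⁻¹).1.trace = h.1.trace := by
  have h1 : (g * h * g⁻¹).1 = (g * h).1 * (g⁻¹).1 := Matrix.SpecialLinearGroup.coe_mul _ _
  have h2 : (g⁻¹ * (g * h)).1 = (g⁻¹).1 * (g * h).1 := Matrix.SpecialLinearGroup.coe_mul _ _
  rw [h1, Matrix.trace_mul_comm, ← h2, inv_mul_cancel_left]

theorem tr_inv (h : Matrix.SpecialLinearGroup (Fin 2) R) : (h⁻¹).1.trace = h.1.trace := by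
  have hinv : (h⁻¹).1 = !![h.1 1 1, -h.1 0 1; -h.1 1 0, h.1 0 0] := by
    have := Matrix.SpecialLinearGroup.coe_inv h
    rw [Matrix.adjugate_fin_two] at this
    exact this
  rw [hinv, Matrix.trace_fin_two_of, Matrix.trace_fin_two]
  ring

end ring

theorem tk_gt (s : ℤ) (hs : 2 < s) (k : ℕ) : 2 ≤ tk s k ∧ tk s k < tk s (k + 1) := by
  induction k with
  | zero => exact ⟨by simp [tk], by simpa [tk] using hs⟩
  | succ k ih =>
    refine ⟨by linarith, ?_⟩
    rw [tk_succ]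
    nlinarith

theorem sign_sq {n : ℤ} (h : n ≠ 0) : Int.sign n * Int.sign n = 1 := by
  rcases lt_or_gt_of_ne h with h3 | h3
  · rw [Int.sign_eq_neg_one_of_neg h3]; rfl
  · rw [Int.sign_eq_one_of_pos h3]; rfl

/-- traces of powers of a hyperbolic element -/
theorem trace_pow_hyp {h : SLZ} (hh : 2 < |h.1.trace|) {k : ℕ} (hk : 1 ≤ k) :
    2 < |(h ^ k).1.trace| ∧ Int.sign (h ^ k).1.trace = Int.sign h.1.trace ^ k := by
  have hne : h.1.trace ≠ 0 := by
    intro h0
    rw [h0] at hh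
    simp at hh
  have h1 : (h ^ k).1.trace = tk h.1.trace k := by
    have h2 : (h ^ k).1 = h.1 ^ k := Matrix.SpecialLinearGroup.coe_pow h k
    rw [h2, (trace_pow h.1 h.2 k).1]
  have h2 : h.1.trace = Int.sign h.1.trace * |h.1.trace| := (Int.sign_mul_abs _).symm
  have h3 := sign_sq hne
  have h4 : tk h.1.trace k = Int.sign h.1.trace ^ k * tk |h.1.trace| k := by
    conv_lhs => rw [h2]
    exact (tk_sign _ _ h3 k).1
  have h5 : 2 < tk |h.1.trace| k := by
    obtain ⟨m, rfl⟩ : ∃ m, k = m + 1 := ⟨k - 1, by omega⟩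
    have := tk_gt _ hh m
    linarith
  have h6 : Int.sign h.1.trace ^ k = 1 ∨ Int.sign h.1.trace ^ k = -1 := by
    rcases lt_or_gt_of_ne hne with h7 | h7
    · rw [Int.sign_eq_neg_one_of_neg h7]
      exact neg_one_pow_eq_or ℤ k
    · rw [Int.sign_eq_one_of_pos h7, one_pow]
      exact Or.inl rfl
  rw [h1, h4]
  rcases h6 with h7 | h7 <;> rw [h7]
  · rw [one_mul]
    refine ⟨by rw [abs_of_pos (by linarith)]; exact h5, Int.sign_eq_one_of_pos (by linarith)⟩
  · refine ⟨?_, ?_⟩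
    · rw [abs_of_neg (by linarith)]; linarith
    · exact Int.sign_eq_neg_one_of_neg (by linarith)

/-! ### the representation -/

variable {G : Subgroup SLZ} {K : Type} [Field K] [Algebra ℂ K] (L : Lam G K)

theorem eps_sl (g : SLZ) (b a : Cusp) : ((eps g b : ℤ) : K) * L.sl a (g • b) =
    ((Int.sign (eps g b * dt a (g • b)) : ℤ) : K) * L.lam a (g • b) := by
  have h1 : Int.sign (eps g b * dt a (g • b)) = eps g b * Int.sign (dt a (g • b)) := by
    rw [Int.sign_mul]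
    rcases eps_or g b with h | h <;> rw [h] <;> rfl
  rw [h1, Lam.sl, Int.cast_mul]
  ring

theorem dK_act (Rp : Rep L) (g : G) (a b : Cusp) : dK (Rp.W a) ((Rp.R g).1 *ᵥ Rp.W b) =
    ((Int.sign (eps (g : SLZ) b * dt a ((g : SLZ) • b)) : ℤ) : K) * L.lam a ((g : SLZ) • b) := by
  rw [Rp.act, ← eps_sl]
  have : L.sl a ((g : SLZ) • b) = dK (Rp.W a) (Rp.W ((g : SLZ) • b)) := (Rp.det _ _).symm
  rw [this]
  simp only [dK, Pi.smul_apply, smul_eq_mul]
  ring

theorem tr_eq (hN : NonzeroStatement) (hG : IsSurface G) (Rp : Rep L) (h : G)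
    (hh : 2 < |(h : SLZ).1.trace|) :
    L.tr (h : SLZ) = ((Int.sign (h : SLZ).1.trace : ℤ) : K) * (Rp.R h).1.trace := by
  have hne : (h : SLZ).1.trace ≠ 0 := by
    intro h0
    rw [h0] at hh
    simp at hh
  have hs := side_ne hh infty
  rw [side_eq] at hs
  have hinf : infty ≠ (h : SLZ) • infty := by
    intro h0
    rw [← h0, dt_self, mul_zero] at hs
    exact hs rfl
  have hlam : L.lam infty ((h : SLZ) • infty) ≠ 0 := hN G K L hG _ _ hinf
  have h1 := dK_act L Rp h infty infty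
  have h2 := dK_act L Rp (h * h) infty infty
  have h3 : (Rp.R (h * h)).1 = (Rp.R h).1 * (Rp.R h).1 := by
    rw [map_mul]; exact Matrix.SpecialLinearGroup.coe_mul _ _
  have h4 : dK (Rp.W infty) ((Rp.R (h * h)).1 *ᵥ Rp.W infty) =
      (Rp.R h).1.trace * dK (Rp.W infty) ((Rp.R h).1 *ᵥ Rp.W infty) := by
    rw [h3, cayley _ (Rp.R h).2, Matrix.sub_mulVec, Matrix.smul_mulVec, Matrix.one_mulVec]
    simp only [dK, Pi.sub_apply, Pi.smul_apply, smul_eq_mul]
    ring
  rw [h4, h1] at h2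
  have h5 : ((h * h : G) : SLZ) = (h : SLZ) * (h : SLZ) := rfl
  have e := Int.sign_mul (h : SLZ).1.trace (eps (h : SLZ) infty * dt infty ((h : SLZ) • infty))
  rw [h5, dv_sq, e, Int.cast_mul] at h2
  have h6 : ((Int.sign (eps (h : SLZ) infty * dt infty ((h : SLZ) • infty)) : ℤ) : K) *
      ((Int.sign (eps (h : SLZ) infty * dt infty ((h : SLZ) • infty)) : ℤ) : K) = 1 := by
    rw [← Int.cast_mul, sign_sq hs, Int.cast_one]
  have h7 : ((Int.sign (h : SLZ).1.trace : ℤ) : K) * ((Int.sign (h : SLZ).1.trace : ℤ) : K) = 1 := by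
    rw [← Int.cast_mul, sign_sq hne, Int.cast_one]
  rw [Lam.tr, div_eq_iff hlam]
  generalize ((Int.sign (eps (h : SLZ) infty * dt infty ((h : SLZ) • infty)) : ℤ) : K) = σ at *
  generalize ((Int.sign (h : SLZ).1.trace : ℤ) : K) = τ at *
  have h8 : L.lam infty (((h : SLZ) * (h : SLZ)) • infty) * τ =
      (Rp.R h).1.trace * L.lam infty ((h : SLZ) • infty) := by
    linear_combination (-σ) * h2 + ((Rp.R h).1.trace * L.lam infty ((h : SLZ) • infty) -
      L.lam infty (((h : SLZ) * (h : SLZ)) • infty) * τ) * h6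
  linear_combination τ * h8 - L.lam infty (((h : SLZ) * (h : SLZ)) • infty) * h7

end ATRACE

open AREP AVPAR ATRACE

/-- Module TRACE. -/
theorem trace (hR : RepStatement) (hN : NonzeroStatement) : TraceStatement := by
  intro G K _ _ L hG h hG' hh
  obtain ⟨Rp⟩ := hR G K L hG
  have hne : h.1.trace ≠ 0 := by
    intro h0
    rw [h0] at hh
    simp at hh
  have key : ∀ (Rp : Rep L) (h' : G), (h' : SLZ) = h →
      L.tr h = ((Int.sign h.1.trace : ℤ) : K) * (Rp.R h').1.trace := by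
    intro Rp h' e
    subst e
    exact tr_eq L hN hG Rp h' hh
  have key2 : ∀ (x : SLZ) (x' : G), (x' : SLZ) = x → 2 < |x.1.trace| →
      L.tr x = ((Int.sign x.1.trace : ℤ) : K) * (Rp.R x').1.trace := by
    intro x x' e hx
    subst e
    exact tr_eq L hN hG Rp x' hx
  obtain ⟨h', hh'⟩ : ∃ h' : G, (h' : SLZ) = h := ⟨⟨h, hG'⟩, rfl⟩
  have h7 : ((Int.sign h.1.trace : ℤ) : K) * ((Int.sign h.1.trace : ℤ) : K) = 1 := by
    rw [← Int.cast_mul, sign_sq hne, Int.cast_one]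
  refine ⟨side_ne hh, ?_, ?_, ?_, ?_, ?_, key⟩
  · intro a b hab
    have h1 := dv_add h a b
    have h2 := dv_mul h a b
    have d1 := dK_act L Rp h' a b
    have d2 := dK_act L Rp h'⁻¹ a b
    have hh'' : ((h'⁻¹ : G) : SLZ) = h⁻¹ := by rw [Subgroup.coe_inv, hh']
    rw [hh''] at d2
    rw [hh'] at d1
    have hinv : (Rp.R h'⁻¹).1 = !![(Rp.R h').1 1 1, -(Rp.R h').1 0 1;
        -(Rp.R h').1 1 0, (Rp.R h').1 0 0] := by
      rw [map_inv]
      have := Matrix.SpecialLinearGroup.coe_inv (Rp.R h')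
      rw [Matrix.adjugate_fin_two] at this
      exact this
    have d3 : dK (Rp.W a) ((Rp.R h'⁻¹).1 *ᵥ Rp.W b) =
        (Rp.R h').1.trace * dK (Rp.W a) (Rp.W b) - dK (Rp.W a) ((Rp.R h').1 *ᵥ Rp.W b) := by
      rw [hinv, Matrix.trace_fin_two]
      simp only [dK, Matrix.mulVec, dotProduct, Fin.sum_univ_two, Matrix.of_apply,
        Matrix.cons_val', Matrix.cons_val_zero, Matrix.cons_val_one, Matrix.cons_val_fin_one]
      ring
    have d4 : dK (Rp.W a) (Rp.W b) = ((Int.sign (dt a b) : ℤ) : K) * L.lam a b := Rp.det a b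
    rw [d1, d4, d2] at d3
    -- signs
    rw [key Rp h' hh']
    generalize (Rp.R h').1.trace = τM at d3 ⊢
    clear d1 d2 d4 hinv key key2
    generalize eps h b * dt a (h • b) = u at *
    generalize eps h⁻¹ b * dt a (h⁻¹ • b) = v at *
    have hab' : dt a b ≠ 0 := by
      intro h0
      have e := dt_eq_zero.1 h0
      rw [e] at hab
      nlinarith [mul_self_nonneg (side h b)]
    have huv : 0 < u * v := by
      rw [h2]
      nlinarith [mul_self_nonneg (dt a b)]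
    have hsu : Int.sign u = Int.sign h.1.trace * Int.sign (dt a b) := by
      rw [← Int.sign_mul, ← h1]
      rcases mul_pos_iff.1 huv with ⟨p, q⟩ | ⟨p, q⟩
      · rw [Int.sign_eq_one_of_pos p, Int.sign_eq_one_of_pos (by linarith)]
      · rw [Int.sign_eq_neg_one_of_neg p, Int.sign_eq_neg_one_of_neg (by linarith)]
    have hsv : Int.sign v = Int.sign h.1.trace * Int.sign (dt a b) := by
      rw [← Int.sign_mul, ← h1]
      rcases mul_pos_iff.1 huv with ⟨p, q⟩ | ⟨p, q⟩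
      · rw [Int.sign_eq_one_of_pos q, Int.sign_eq_one_of_pos (by linarith)]
      · rw [Int.sign_eq_neg_one_of_neg q, Int.sign_eq_neg_one_of_neg (by linarith)]
    rw [hsu, hsv, Int.cast_mul] at d3
    have h6 : ((Int.sign (dt a b) : ℤ) : K) * ((Int.sign (dt a b) : ℤ) : K) = 1 := by
      rw [← Int.cast_mul, sign_sq hab', Int.cast_one]
    generalize ((Int.sign (dt a b) : ℤ) : K) = σ at d3 h6
    generalize ((Int.sign h.1.trace : ℤ) : K) = τ at d3 h7 ⊢
    generalize L.lam a (h • b) = l1 at d3 ⊢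
    generalize L.lam a (h⁻¹ • b) = l2 at d3 ⊢
    generalize L.lam a b = l0 at d3 ⊢
    have h8 : τ * (l1 + l2) = τM * l0 := by
      linear_combination σ * d3 + (τM * l0 - τ * (l1 + l2)) * h6
    linear_combination (-τ) * h8 + (l1 + l2) * h7
  · intro k hk
    obtain ⟨g1, g2⟩ := trace_pow_hyp hh hk
    have e1 := key2 (h ^ k) (h' ^ k) (by rw [Subgroup.coe_pow, hh']) g1
    have e3 : (Rp.R (h' ^ k)).1 = (Rp.R h').1 ^ k := by
      rw [map_pow]; exact Matrix.SpecialLinearGroup.coe_pow _ _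
    rw [e1, g2, e3, (trace_pow _ (Rp.R h').2 k).1, key Rp h' hh', (tk_sign _ _ h7 k).1,
      Int.cast_pow]
  · intro g hg
    obtain ⟨g', hg'⟩ : ∃ g' : G, (g' : SLZ) = g := ⟨⟨g, hg⟩, rfl⟩
    have hh2 : 2 < |(g * h * g⁻¹).1.trace| := by rw [tr_conj]; exact hh
    have e1 := key2 (g * h * g⁻¹) (g' * h' * g'⁻¹)
      (by rw [Subgroup.coe_mul, Subgroup.coe_mul, Subgroup.coe_inv, hh', hg']) hh2
    rw [e1, key Rp h' hh', tr_conj, map_mul, map_mul, map_inv, tr_conj]
  · rw [Lam.tr, Lam.tr, neg_mul_neg, neg_smul']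
  · have hh2 : 2 < |(h⁻¹).1.trace| := by rw [tr_inv]; exact hh
    have e1 := key2 h⁻¹ h'⁻¹ (by rw [Subgroup.coe_inv, hh']) hh2
    rw [e1, key Rp h' hh', tr_inv, map_inv, tr_inv]

end Pool.Agent.Lib.MP_eee7a8_ag.TB
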