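import Pool.Agent.Lib.MP_eee7a8_ag.TB.A.H39.Rep

/-!
# TAGBR: modules VPAR and VINV (the parabolic element at a cusp)
-/

open Matrix

namespace Pool.Agent.Lib.MP_eee7a8_ag.TB

namespace AVPAR

open AREP

variable {G : Subgroup SLZ} {K : Type} [Field K] [Algebra ℂ K] (L : Lam G K)

theorem eps_one (a : Cusp) : eps 1 a = 1 := by
  have h1 := smul_x 1 a
  have h2 := smul_y 1 a
  rw [one_smul] at h1 h2
  simp only [Matrix.SpecialLinearGroup.coe_one, Matrix.one_apply_eq, ne_eq, Fin.isValue,
    zero_ne_one, not_false_eq_true, Matrix.one_apply_ne, one_ne_zero, one_mul, zero_mul, add_zero,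
    zero_add] at h1 h2
  rcases a.ne_zero with h | h
  · exact mul_right_cancel₀ h (h1.trans (one_mul _).symm)
  · exact mul_right_cancel₀ h (h2.trans (one_mul _).symm)

theorem eps_par (a : Cusp) (n : ℤ) : eps (par a n) a = 1 := by
  have h1 := par_smul_x a a n
  have h2 := par_smul_y a a n
  rw [par_smul_self, dt_self] at h1 h2
  rcases a.ne_zero with h | h
  · apply mul_right_cancel₀ h
    linear_combination h1
  · apply mul_right_cancel₀ h
    linear_combination h2

theorem other_ne (a : Cusp) : other a ≠ a := by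
  unfold other
  split_ifs with h
  · rw [h]
    intro h2
    have := congrArg Cusp.x h2
    simp [zero, infty] at this
  · exact fun h2 => h h2.symm

theorem sl_sq {a b : Cusp} (h : a ≠ b) : L.sl a b * L.sl a b = L.lam a b ^ 2 := by
  rw [Lam.sl]
  have h1 := dt_ne_zero h
  have h2 : Int.sign (dt a b) * Int.sign (dt a b) = 1 := by
    rcases lt_or_gt_of_ne h1 with h3 | h3
    · rw [Int.sign_eq_neg_one_of_neg h3]; rfl
    · rw [Int.sign_eq_one_of_pos h3]; rfl
  have h4 : ((Int.sign (dt a b) : ℤ) : K) * ((Int.sign (dt a b) : ℤ) : K) = 1 := by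
    rw [← Int.cast_mul, h2, Int.cast_one]
  linear_combination (L.lam a b ^ 2) * h4

/-- An operator acting like `par a w`. -/
theorem exists_op (Rp : Rep L) {a : Cusp} {w : ℤ} (hw : par a w ∈ G ∨ -par a w ∈ G) :
    ∃ A : Matrix (Fin 2) (Fin 2) K, A.det = 1 ∧
      ∀ y, A *ᵥ Rp.W y = ((eps (par a w) y : ℤ) : K) • Rp.W (par a w • y) := by
  rcases hw with h | h
  · exact ⟨(Rp.R ⟨_, h⟩).1, (Rp.R ⟨_, h⟩).2, fun y => Rp.act ⟨_, h⟩ y⟩
  · refine ⟨-(Rp.R ⟨_, h⟩).1, ?_, fun y => ?_⟩
    · rw [Matrix.det_neg, (Rp.R ⟨_, h⟩).2]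
      simp
    · have := Rp.act ⟨_, h⟩ y
      rw [Matrix.neg_mulVec, this, eps_neg, neg_smul', Int.cast_neg, neg_smul, neg_neg]

/-- The determinant of two vectors. -/
def dK (u v : Fin 2 → K) : K := u 0 * v 1 - u 1 * v 0

omit [Algebra ℂ K] in
theorem dK_mulVec (A : Matrix (Fin 2) (Fin 2) K) (u v : Fin 2 → K) :
    dK (A *ᵥ u) (A *ᵥ v) = A.det * dK u v := by
  rw [Matrix.det_fin_two]
  simp only [dK, Matrix.mulVec, dotProduct, Fin.sum_univ_two]
  ring

omit [Algebra ℂ K] in
theorem dK_symm (u v : Fin 2 → K) : dK u v = -dK v u := by unfold dK; ring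

omit [Algebra ℂ K] in
theorem dK_self (u : Fin 2 → K) : dK u u = 0 := by unfold dK; ring

omit [Algebra ℂ K] in
theorem dK_add_smul (u v w : Fin 2 → K) (c : K) : dK u (v + c • w) = dK u v + c * dK u w := by
  simp only [dK, Pi.add_apply, Pi.smul_apply, smul_eq_mul]; ring

omit [Algebra ℂ K] in
/-- unipotent matrices -/
theorem unip {A : Matrix (Fin 2) (Fin 2) K} {e o : Fin 2 → K} (hd : A.det = 1)
    (he : A *ᵥ e = e) (ho : dK e o ≠ 0) :
    ∃ c : K, ∀ u, A *ᵥ u = u + (c * dK e u) • e := by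
  have h1 := dK_mulVec A e o
  rw [he, hd, one_mul] at h1
  -- `A o - o` is a multiple of `e`
  obtain ⟨t, ht⟩ : ∃ t : K, A *ᵥ o = o + t • e := by
    refine ⟨dK (A *ᵥ o) o / dK e o, ?_⟩
    apply vec_eq (p := e) (q := o) ho
    · change dK _ e = dK _ e
      rw [dK_symm, h1, dK_symm _ e, dK_add_smul, dK_self]
      ring
    · change dK _ o = dK _ o
      rw [dK_symm _ o, dK_symm (o + _) o, dK_add_smul, dK_self, dK_symm o e]
      field_simp
      ring
  refine ⟨t / dK e o, fun u => ?_⟩
  have hu : u = (dK u o / dK e o) • e + (dK e u / dK e o) • o := by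
    have ho' : e 0 * o 1 - e 1 * o 0 ≠ 0 := ho
    funext i
    rw [Pi.add_apply, Pi.smul_apply, Pi.smul_apply, smul_eq_mul, smul_eq_mul,
      div_mul_eq_mul_div, div_mul_eq_mul_div, ← add_div, eq_div_iff ho]
    fin_cases i
    · simp only [dK, Fin.zero_eta, Fin.isValue]
      ring
    · simp only [dK, Fin.mk_one, Fin.isValue]
      ring
  calc A *ᵥ u = A *ᵥ ((dK u o / dK e o) • e + (dK e u / dK e o) • o) := by rw [← hu]
    _ = (dK u o / dK e o) • e + (dK e u / dK e o) • (o + t • e) := by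
      rw [Matrix.mulVec_add, Matrix.mulVec_smul, Matrix.mulVec_smul, he, ht]
    _ = ((dK u o / dK e o) • e + (dK e u / dK e o) • o) + (t / dK e o * dK e u) • e := by
      funext i
      simp only [Pi.add_apply, Pi.smul_apply, smul_eq_mul]
      ring
    _ = u + (t / dK e o * dK e u) • e := by rw [← hu]

omit [Algebra ℂ K] in
/-- an `SL2` matrix is injective -/
theorem mulVec_inj {A : Matrix (Fin 2) (Fin 2) K} (hd : A.det = 1) {u v : Fin 2 → K}
    (h : A *ᵥ u = A *ᵥ v) : u = v := by
  have hA : IsUnit A := by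
    rw [Matrix.isUnit_iff_isUnit_det, hd]
    exact isUnit_one
  exact Matrix.mulVec_injective_of_isUnit hA h

/-- the action of the powers of the parabolic element on the vectors -/
theorem act_par (Rp : Rep L) {a o : Cusp} {w : ℤ} (hw : par a w ∈ G ∨ -par a w ∈ G)
    (ho : dK (Rp.W a) (Rp.W o) ≠ 0) : ∃ c : K, ∀ (k : ℤ) (y : Cusp),
      ((eps (par a (k * w)) y : ℤ) : K) • Rp.W (par a (k * w) • y) =
        Rp.W y + (k * c * dK (Rp.W a) (Rp.W y)) • Rp.W a := by
  obtain ⟨A, hA, hact⟩ := exists_op L Rp hw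
  have he : A *ᵥ Rp.W a = Rp.W a := by
    rw [hact, eps_par, par_smul_self]
    simp
  obtain ⟨c, hc⟩ := unip hA he ho
  refine ⟨c, fun k => ?_⟩
  have step : ∀ (k : ℤ) y, ((eps (par a ((k + 1) * w)) y : ℤ) : K) • Rp.W (par a ((k + 1) * w) • y) =
      A *ᵥ (((eps (par a (k * w)) y : ℤ) : K) • Rp.W (par a (k * w) • y)) := by
    intro k y
    have e1 : par a ((k + 1) * w) = par a w * par a (k * w) := by
      rw [par_mul]; congr 1; ring
    rw [e1, eps_mul, mul_smul, Matrix.mulVec_smul, hact, Int.cast_mul,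
      mul_comm ((eps (par a w) _ : ℤ) : K)]
    exact mul_smul _ _ _
  have hadd : ∀ (k : ℤ) y, A *ᵥ (Rp.W y + (k * c * dK (Rp.W a) (Rp.W y)) • Rp.W a) =
      Rp.W y + (((k + 1 : ℤ) : K) * c * dK (Rp.W a) (Rp.W y)) • Rp.W a := by
    intro k y
    rw [Matrix.mulVec_add, Matrix.mulVec_smul, he, hc, add_assoc, ← add_smul]
    congr 2
    push_cast
    ring
  induction k using Int.induction_on with
  | zero =>
    intro y
    rw [zero_mul, par_zero, eps_one, one_smul]
    simp
  | succ k ih =>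
    intro y
    rw [step, ih y]
    exact hadd k y
  | pred k ih =>
    intro y
    apply mulVec_inj hA
    rw [← step, hadd]
    have := ih y
    rw [sub_add_cancel]
    exact this

end AVPAR

open AREP AVPAR

/-- Module VPAR. -/
theorem vpar (hR : RepStatement) (hP : PluckerStatement) (hS : StabStatement)
    (hN : NonzeroStatement) : VparStatement := by
  intro G K _ _ L hG a x y k
  obtain ⟨Rp⟩ := hR G K L hG
  obtain ⟨hw0, hw, -⟩ := hS G hG a
  obtain ⟨-, hsy, -⟩ := hP G K L
  set w : ℤ := (width G a : ℤ) with hwdef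
  set o := other a with hodef
  have hao : a ≠ o := (other_ne a).symm
  have hlam : L.lam a o ≠ 0 := hN G K L hG a o hao
  have hdK : ∀ p q, dK (Rp.W p) (Rp.W q) = L.sl p q := fun p q => Rp.det p q
  have hself : L.sl o o = 0 := by rw [Lam.sl, dt_self]; simp
  have hsq := sl_sq L hao
  have hslao : L.sl a o ≠ 0 := by
    intro h
    rw [h, mul_zero] at hsq
    exact pow_ne_zero 2 hlam hsq.symm
  obtain ⟨c, hc⟩ := act_par L Rp (a := a) (o := o) hw (by rw [hdK]; exact hslao)
  -- the value of `c`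
  have hcv : c = L.v a := by
    have h1 := congrArg (dK (Rp.W o)) (hc 1 o)
    rw [dK_add_smul, one_mul, hdK, hdK, hdK, hself, hsy o a] at h1
    have h2 : dK (Rp.W o) (((eps (par a w) o : ℤ) : K) • Rp.W (par a w • o)) =
        ((eps (par a w) o : ℤ) : K) * L.sl o (par a w • o) := by
      rw [← hdK]
      simp only [dK, Pi.smul_apply, smul_eq_mul]; ring
    rw [h2] at h1
    have h3 := par_dt a o o w
    rw [dt_self, dt_symm o a, zero_add] at h3
    have h4 : eps (par a w) o * Int.sign (dt o (par a w • o)) = -1 := by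
      have hpos : 0 < dt a o * dt a o := mul_self_pos.2 (dt_ne_zero hao)
      have hneg : eps (par a w) o * dt o (par a w • o) < 0 := by
        rw [h3]
        have : (0 : ℤ) < w := by rw [hwdef]; exact_mod_cast hw0
        nlinarith
      rcases eps_or (par a w) o with h5 | h5
      · rw [h5, one_mul] at hneg ⊢
        exact Int.sign_eq_neg_one_of_neg hneg
      · rw [h5] at hneg ⊢
        rw [Int.sign_eq_one_of_pos (by linarith)]
        rfl
    have h5 : ((eps (par a w) o : ℤ) : K) * L.sl o (par a w • o) = -L.lam o (par a w • o) := by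
      rw [Lam.sl, ← mul_assoc, ← Int.cast_mul, h4]
      simp
    rw [h5] at h1
    have h6 : L.v a = L.lam o (par a w • o) / L.lam a o ^ 2 := rfl
    rw [h6, ← hsq, eq_div_iff (mul_ne_zero hslao hslao)]
    push_cast at h1
    linear_combination h1
  have h1 := congrArg (dK (Rp.W x)) (hc k y)
  rw [dK_add_smul, hdK, hdK, hdK, hcv] at h1
  have h2 : dK (Rp.W x) (((eps (par a (k * w)) y : ℤ) : K) • Rp.W (par a (k * w) • y)) =
      ((eps (par a (k * w)) y : ℤ) : K) * L.sl x (par a (k * w) • y) := by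
    rw [← hdK]
    simp only [dK, Pi.smul_apply, smul_eq_mul]; ring
  rw [h2] at h1
  exact h1

namespace AVPAR

/-- `v a` in terms of any other cusp -/
theorem v_eq (hV : VparStatement) (hP : PluckerStatement) (hS : StabStatement)
    (hN : NonzeroStatement) {G : Subgroup SLZ} {K : Type} [Field K] [Algebra ℂ K] (L : Lam G K)
    (hG : IsSurface G) {a b : Cusp} (hab : a ≠ b) :
    L.v a = L.lam b (par a (width G a) • b) / L.lam a b ^ 2 ∧ b ≠ par a (width G a) • b := by
  obtain ⟨hw0, -, -⟩ := hS G hG a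
  obtain ⟨-, hsy, -⟩ := hP G K L
  have h1 := hV G K L hG a b b 1
  rw [one_mul] at h1
  set w : ℤ := (width G a : ℤ) with hwdef
  have hself : L.sl b b = 0 := by rw [Lam.sl, dt_self]; simp
  have hlam : L.lam a b ≠ 0 := hN G K L hG a b hab
  have hsq := sl_sq L hab
  rw [hself, hsy b a] at h1
  have h3 := par_dt a b b w
  rw [dt_self, dt_symm b a, zero_add] at h3
  have hpos : 0 < dt a b * dt a b := mul_self_pos.2 (dt_ne_zero hab)
  have hneg : eps (par a w) b * dt b (par a w • b) < 0 := by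
    rw [h3]
    have : (0 : ℤ) < w := by rw [hwdef]; exact_mod_cast hw0
    nlinarith
  have h4 : eps (par a w) b * Int.sign (dt b (par a w • b)) = -1 := by
    rcases eps_or (par a w) b with h5 | h5
    · rw [h5, one_mul] at hneg ⊢
      exact Int.sign_eq_neg_one_of_neg hneg
    · rw [h5] at hneg ⊢
      rw [Int.sign_eq_one_of_pos (by linarith)]
      rfl
  have h5 : ((eps (par a w) b : ℤ) : K) * L.sl b (par a w • b) = -L.lam b (par a w • b) := by
    rw [Lam.sl, ← mul_assoc, ← Int.cast_mul, h4]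
    simp
  rw [h5] at h1
  refine ⟨?_, ?_⟩
  · rw [eq_div_iff (pow_ne_zero 2 hlam), ← hsq]
    push_cast at h1
    linear_combination h1
  · intro h
    rw [← h, dt_self, mul_zero] at hneg
    exact lt_irrefl _ hneg

theorem width_smul {G : Subgroup SLZ} {g : SLZ} (hg : g ∈ G) (a : Cusp) :
    width G (g • a) = width G a := by
  have key : ∀ n : ℤ, (par (g • a) n ∈ G ∨ -par (g • a) n ∈ G) ↔ (par a n ∈ G ∨ -par a n ∈ G) := by
    intro n
    rw [← conj_par]
    have e1 : ∀ z : SLZ, g * z * g⁻¹ ∈ G ↔ z ∈ G := by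
      intro z
      rw [G.mul_mem_cancel_right (G.inv_mem hg), G.mul_mem_cancel_left hg]
    have e2 : -(g * par a n * g⁻¹) = g * (-par a n) * g⁻¹ := by
      rw [mul_neg, neg_mul]
    rw [e2, e1, e1]
  unfold width
  congr 1
  ext n
  simp only [Set.mem_ofPred_eq]
  rw [key]

end AVPAR

/-- Module VINV. -/
theorem vinv (hV : VparStatement) (hP : PluckerStatement) (hS : StabStatement)
    (hN : NonzeroStatement) : VinvStatement := by
  intro G K _ _ L hG
  refine ⟨fun g hg a => ?_, fun a => ?_⟩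
  · have hao : a ≠ other a := (other_ne a).symm
    have hao' : g • a ≠ g • other a := fun h => hao (smul_left_cancel g h)
    rw [(v_eq hV hP hS hN L hG hao').1, (v_eq hV hP hS hN L hG hao).1, width_smul hg, ← conj_par,
      L.inv g hg, mul_smul, mul_smul, inv_smul_smul, L.inv g hg]
  · have hao : a ≠ other a := (other_ne a).symm
    obtain ⟨h1, h2⟩ := v_eq hV hP hS hN L hG hao
    rw [h1]
    exact div_ne_zero (hN G K L hG _ _ h2) (pow_ne_zero 2 (hN G K L hG _ _ hao))

end Pool.Agent.Lib.MP_eee7a8_ag.TB
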